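import Mathlib

set_option autoImplicit false

namespace Pool.Agent.Results.MP_1ce666_co.FibCount

/-! ### Part 1: counting words avoiding 321 and 3142 -/

/-- the word `w` has no decreasing subsequence of length three -/
def A321 (w : List ℕ) : Prop := ∀ x y z, [x, y, z].Sublist w → ¬ (z < y ∧ y < x)

/-- the word `w` has no subsequence `x, y, z, t` with `y < t < x < z` -/
def A3142 (w : List ℕ) : Prop :=
  ∀ x y z t, [x, y, z, t].Sublist w → ¬ (y < t ∧ t < x ∧ x < z)

def Av (w : List ℕ) : Prop := A321 w ∧ A3142 w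

def Q (u b : List ℕ) : Prop :=
  Av u ∧ b.Pairwise (· < ·) ∧ ∀ x y, [x, y].Sublist u → y < x → ∀ t ∈ b, x < t

lemma sub2 {x y : ℕ} {u v : List ℕ} (h : [x, y].Sublist (u ++ v)) :
    [x, y].Sublist v ∨ (x ∈ u ∧ y ∈ v) ∨ [x, y].Sublist u := by
  rw [List.sublist_append_iff] at h
  obtain ⟨l1, l2, h0, h1, h2⟩ := h
  rcases l1 with _ | ⟨a, _ | ⟨b, l1⟩⟩
  · simp at h0; subst h0; exact Or.inl h2
  · simp at h0
    obtain ⟨rfl, rfl⟩ := h0
    exact Or.inr (Or.inl ⟨List.singleton_sublist.1 h1, List.singleton_sublist.1 h2⟩)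
  · simp at h0
    obtain ⟨rfl, rfl, rfl, rfl⟩ := h0
    exact Or.inr (Or.inr h1)

lemma sub3 {x y z : ℕ} {u v : List ℕ} (h : [x, y, z].Sublist (u ++ v)) :
    [x, y, z].Sublist v ∨ (x ∈ u ∧ [y, z].Sublist v) ∨ ([x, y].Sublist u ∧ z ∈ v) ∨
      [x, y, z].Sublist u := by
  rw [List.sublist_append_iff] at h
  obtain ⟨l1, l2, h0, h1, h2⟩ := h
  rcases l1 with _ | ⟨a, _ | ⟨b, _ | ⟨c, l1⟩⟩⟩
  · simp at h0; subst h0; exact Or.inl h2
  · simp at h0
    obtain ⟨rfl, rfl⟩ := h0
    exact Or.inr (Or.inl ⟨List.singleton_sublist.1 h1, h2⟩)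
  · simp at h0
    obtain ⟨rfl, rfl, rfl⟩ := h0
    exact Or.inr (Or.inr (Or.inl ⟨h1, List.singleton_sublist.1 h2⟩))
  · simp at h0
    obtain ⟨rfl, rfl, rfl, rfl, rfl⟩ := h0
    exact Or.inr (Or.inr (Or.inr h1))

lemma sub4 {x y z t : ℕ} {u v : List ℕ} (h : [x, y, z, t].Sublist (u ++ v)) :
    [x, y, z, t].Sublist v ∨ (x ∈ u ∧ [y, z, t].Sublist v) ∨
      ([x, y].Sublist u ∧ [z, t].Sublist v) ∨ ([x, y, z].Sublist u ∧ t ∈ v) ∨
      [x, y, z, t].Sublist u := by
  rw [List.sublist_append_iff] at h
  obtain ⟨l1, l2, h0, h1, h2⟩ := h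
  rcases l1 with _ | ⟨a, _ | ⟨b, _ | ⟨c, _ | ⟨d, l1⟩⟩⟩⟩
  · simp at h0; subst h0; exact Or.inl h2
  · simp at h0
    obtain ⟨rfl, rfl⟩ := h0
    exact Or.inr (Or.inl ⟨List.singleton_sublist.1 h1, h2⟩)
  · simp at h0
    obtain ⟨rfl, rfl, rfl⟩ := h0
    exact Or.inr (Or.inr (Or.inl ⟨h1, h2⟩))
  · simp at h0
    obtain ⟨rfl, rfl, rfl, rfl⟩ := h0
    exact Or.inr (Or.inr (Or.inr (Or.inl ⟨h1, List.singleton_sublist.1 h2⟩)))
  · simp at h0
    obtain ⟨rfl, rfl, rfl, rfl, rfl, rfl⟩ := h0
    exact Or.inr (Or.inr (Or.inr (Or.inr h1)))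

lemma subc {M x : ℕ} {l b : List ℕ} (h : (x :: l).Sublist (M :: b)) :
    (x :: l).Sublist b ∨ (x = M ∧ l.Sublist b) := by
  rcases h with _ | h | h
  · left; assumption
  · right; exact ⟨rfl, by assumption⟩

lemma lt_of_pw {b : List ℕ} (hb : b.Pairwise (· < ·)) {x y : ℕ} {l : List ℕ}
    (h : (x :: y :: l).Sublist b) : x < y := by
  have := hb.sublist h
  simp only [List.pairwise_cons] at this
  exact this.1 y (by simp)

lemma keyK {u b : List ℕ} {M : ℕ} (hM : ∀ v ∈ u ++ b, v < M) (hn : (u ++ b).Nodup) :
    Av (u ++ M :: b) ↔ Q u b := by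
  constructor
  · rintro ⟨h3, h4⟩
    have hu : u.Sublist (u ++ M :: b) := List.sublist_append_left _ _
    refine ⟨⟨fun x y z h => h3 x y z (h.trans hu), fun x y z t h => h4 x y z t (h.trans hu)⟩,
      ?_, ?_⟩
    · rw [List.pairwise_iff_forall_sublist]
      intro y z hyz
      have h1 : [M, y, z].Sublist (u ++ M :: b) :=
        (List.Sublist.cons_cons M hyz).trans (List.sublist_append_right _ _)
      have h2 := h3 _ _ _ h1
      have hy : y < M := hM y (by
        have := hyz.subset (show y ∈ [y, z] by simp)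
        simp [this])
      have hne : y ≠ z := by
        have := (List.Nodup.sublist hyz (List.nodup_append.1 hn).2.1)
        simpa using this
      omega
    · intro x y hxy hlt t ht
      have h1 : [x, y, M, t].Sublist (u ++ M :: b) := by
        have : [x, y, M, t] = [x, y] ++ (M :: [t]) := rfl
        rw [this]
        exact hxy.append (List.Sublist.cons_cons M (List.singleton_sublist.2 ht))
      have h2 : [x, y, t].Sublist (u ++ M :: b) := by
        have : [x, y, t] = [x, y] ++ [t] := rfl
        rw [this]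
        exact hxy.append (List.singleton_sublist.2 (by simp [ht]))
      have h5 := h4 _ _ _ _ h1
      have h6 := h3 _ _ _ h2
      have hx : x ∈ u := hxy.subset (by simp)
      have hy : y ∈ u := hxy.subset (by simp)
      have hxM : x < M := hM x (by simp [hx])
      have hd := (List.nodup_append.1 hn).2.2
      have h7 : x ≠ t := hd x hx t ht
      have h8 : y ≠ t := hd y hy t ht
      omega
  · rintro ⟨⟨h3, h4⟩, hb, hi⟩
    have hMu : ∀ v ∈ u, v < M := fun v hv => hM v (by simp [hv])
    have hMb : ∀ v ∈ b, v < M := fun v hv => hM v (by simp [hv])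
    constructor
    · intro x y z h ⟨h1, h2⟩
      rcases sub3 h with g | ⟨hx, g⟩ | ⟨g, hz⟩ | g
      · rcases subc g with g' | ⟨e, g'⟩
        · have := lt_of_pw hb g'; omega
        · have := lt_of_pw hb g'; omega
      · rcases subc g with g' | ⟨e, g'⟩
        · have := lt_of_pw hb g'; omega
        · have := hMu x hx; omega
      · have hy : y ∈ u := g.subset (by simp)
        rcases List.mem_cons.1 hz with e | hz
        · have := hMu y hy; omega
        · have := hi x y g h2 z hz; omega
      · exact h3 x y z g ⟨h1, h2⟩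
    · intro x y z t h ⟨h1, h2, h5⟩
      rcases sub4 h with g | ⟨hx, g⟩ | ⟨g, g'⟩ | ⟨g, ht⟩ | g
      · rcases subc g with g' | ⟨e, g'⟩
        · have := lt_of_pw hb g'; omega
        · have hz : z ∈ b := g'.subset (by simp)
          have := hMb z hz; omega
      · rcases subc g with g' | ⟨e, g'⟩
        · have h7 : [y, z, t].Pairwise (· < ·) := hb.sublist g'
          simp at h7
          omega
        · have := hMu x hx; omega
      · have ht : t ∈ b := by
          rcases subc g' with g'' | ⟨e, g''⟩
          · exact g''.subset (by simp)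
          · exact g''.subset (by simp)
        have := hi x y g (by omega) t ht
        omega
      · have hxy : [x, y].Sublist u := by
          have : [x, y].Sublist [x, y, z] := by simp
          exact this.trans g
        have hx : x ∈ u := hxy.subset (by simp)
        rcases List.mem_cons.1 ht with e | ht
        · have := hMu x hx; omega
        · have := hi x y hxy (by omega) t ht; omega
      · exact h4 x y z t g ⟨h1, h2, h5⟩

lemma Q_nil {u : List ℕ} : Q u [] ↔ Av u := by
  simp [Q]

lemma Q_snoc_right {u b : List ℕ} {n : ℕ} (h : ∀ v ∈ u ++ b, v < n) :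
    Q u (b ++ [n]) ↔ Q u b := by
  constructor
  · rintro ⟨h1, h2, h3⟩
    exact ⟨h1, h2.sublist (List.sublist_append_left _ _),
      fun x y hxy hlt t ht => h3 x y hxy hlt t (by simp [ht])⟩
  · rintro ⟨h1, h2, h3⟩
    refine ⟨h1, ?_, ?_⟩
    · rw [List.pairwise_append]
      refine ⟨h2, by simp, ?_⟩
      intro a ha c hc
      simp at hc
      subst hc
      exact h a (by simp [ha])
    · intro x y hxy hlt t ht
      rcases List.mem_append.1 ht with ht | ht
      · exact h3 x y hxy hlt t ht
      · simp at ht
        subst ht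
        exact h x (by
          have := hxy.subset (show x ∈ [x, y] by simp)
          simp [this])

lemma Q_snoc_left {u b : List ℕ} {n : ℕ} (h : ∀ v ∈ u ++ b, v < n) (hn : u.Nodup) :
    Q (u ++ [n]) b ↔ Q u b := by
  have h0 : ∀ v ∈ u ++ [], v < n := by
    intro v hv
    exact h v (by simp at hv; simp [hv])
  have hA : Av (u ++ [n]) ↔ Av u := by
    rw [keyK h0 (by simpa using hn), Q_nil]
  unfold Q
  rw [hA]
  constructor
  · rintro ⟨h1, h2, h3⟩
    exact ⟨h1, h2, fun x y hxy => h3 x y (hxy.trans (List.sublist_append_left _ _))⟩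
  · rintro ⟨h1, h2, h3⟩
    refine ⟨h1, h2, ?_⟩
    intro x y hxy hlt t ht
    rcases sub2 hxy with h4 | ⟨h4, h5⟩ | h4
    · exfalso
      have := h4.length_le
      simp at this
    · simp at h5
      subst h5
      have := h x (by simp [h4])
      omega
    · exact h3 x y h4 hlt t ht

def S0 (n : ℕ) (w : List ℕ) : Prop := w.Perm (List.range n) ∧ Av w

def S1 (n : ℕ) (p : List ℕ × List ℕ) : Prop :=
  (p.1 ++ p.2).Perm (List.range n) ∧ p.2 ≠ [] ∧ Q p.1 p.2

lemma perm_mid {u b : List ℕ} {n : ℕ} :
    (u ++ n :: b).Perm (List.range (n + 1)) ↔ (u ++ b).Perm (List.range n) := by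
  rw [List.range_succ]
  constructor
  · intro h
    have h1 : (n :: (u ++ b)).Perm (n :: List.range n) :=
      (List.perm_middle.symm.trans h).trans (List.perm_append_singleton _ _)
    exact (List.perm_cons n).1 h1
  · intro h
    exact (List.perm_middle.trans ((List.perm_cons n).2 h)).trans
      (List.perm_append_singleton _ _).symm

lemma lt_of_perm {u : List ℕ} {n : ℕ} (h : u.Perm (List.range n)) : ∀ v ∈ u, v < n := by
  intro v hv
  exact List.mem_range.1 (h.subset hv)

lemma nodup_of_perm {u : List ℕ} {n : ℕ} (h : u.Perm (List.range n)) : u.Nodup :=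
  h.nodup_iff.2 List.nodup_range

lemma step0 (n : ℕ) (w : List ℕ) :
    S0 (n + 1) w ↔ (∃ u, S0 n u ∧ w = u ++ [n]) ∨ (∃ p, S1 n p ∧ w = p.1 ++ n :: p.2) := by
  constructor
  · rintro ⟨h1, h2⟩
    have hn : n ∈ w := h1.symm.subset (by simp)
    obtain ⟨u, b, rfl⟩ := List.append_of_mem hn
    have h3 := perm_mid.1 h1
    have h4 := (keyK (lt_of_perm h3) (nodup_of_perm h3)).1 h2
    by_cases hb : b = []
    · subst hb
      left
      refine ⟨u, ⟨by simpa using h3, h4.1⟩, rfl⟩
    · right
      exact ⟨(u, b), ⟨h3, hb, h4⟩, rfl⟩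
  · rintro (⟨u, ⟨h1, h2⟩, rfl⟩ | ⟨⟨u, b⟩, ⟨h1, h2, h3⟩, rfl⟩)
    · have h3 : (u ++ []).Perm (List.range n) := by simpa using h1
      exact ⟨perm_mid.2 h3, (keyK (lt_of_perm h3) (nodup_of_perm h3)).2 (Q_nil.2 h2)⟩
    · exact ⟨perm_mid.2 h1, (keyK (lt_of_perm h1) (nodup_of_perm h1)).2 h3⟩

lemma step1 (n : ℕ) (p : List ℕ × List ℕ) :
    S1 (n + 1) p ↔ (∃ u, S0 n u ∧ p = (u, [n])) ∨ (∃ q, S1 n q ∧ p = (q.1 ++ [n], q.2)) ∨
      (∃ q, S1 n q ∧ p = (q.1, q.2 ++ [n])) := by
  constructor
  · rintro ⟨h1, h2, h3⟩
    obtain ⟨u, b⟩ := p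
    simp only at h1 h2 h3
    have hlt := lt_of_perm h1
    have hn : n ∈ u ++ b := h1.symm.subset (by simp)
    rcases List.mem_append.1 hn with hn | hn
    · obtain ⟨u1, u2, rfl⟩ := List.append_of_mem hn
      have hu2 : u2 = [] := by
        rcases u2 with _ | ⟨y, u2⟩
        · rfl
        · exfalso
          obtain ⟨t, ht⟩ := List.exists_mem_of_ne_nil b h2
          have hs : [n, y].Sublist (u1 ++ n :: y :: u2) := by
            have : [n, y].Sublist (n :: y :: u2) := by simp
            exact this.trans (List.sublist_append_right _ _)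
          have hnd := nodup_of_perm h1
          have hny : y ≠ n := by
            have := hnd.sublist (hs.trans (List.sublist_append_left _ _))
            simp at this
            exact fun h => this h.symm
          have h5 : y < n + 1 := hlt y (by simp)
          have h6 := h3.2.2 n y hs (by omega) t ht
          have h7 := hlt t (by simp [ht])
          omega
      subst hu2
      right; left
      have h4 : (u1 ++ b).Perm (List.range n) := by
        have : (u1 ++ n :: b).Perm (List.range (n + 1)) := by simpa using h1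
        exact perm_mid.1 this
      exact ⟨(u1, b), ⟨h4, h2, (Q_snoc_left (lt_of_perm h4)
        ((nodup_of_perm h4).sublist (List.sublist_append_left _ _))).1 h3⟩, rfl⟩
    · obtain ⟨b1, b2, rfl⟩ := List.append_of_mem hn
      have hb2 : b2 = [] := by
        rcases b2 with _ | ⟨y, b2⟩
        · rfl
        · exfalso
          have hs : [n, y].Sublist (b1 ++ n :: y :: b2) := by
            have : [n, y].Sublist (n :: y :: b2) := by simp
            exact this.trans (List.sublist_append_right _ _)
          have := lt_of_pw h3.2.1 hs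
          have h5 : y < n + 1 := hlt y (by simp)
          omega
      subst hb2
      have h4 : (u ++ b1).Perm (List.range n) := by
        have : ((u ++ b1) ++ n :: []).Perm (List.range (n + 1)) := by simpa using h1
        have := perm_mid.1 this
        simpa using this
      have h5 : Q u b1 := (Q_snoc_right (lt_of_perm h4)).1 h3
      by_cases hb : b1 = []
      · subst hb
        left
        exact ⟨u, ⟨by simpa using h4, h5.1⟩, rfl⟩
      · right; right
        exact ⟨(u, b1), ⟨h4, hb, h5⟩, rfl⟩
  · rintro (⟨u, ⟨h1, h2⟩, rfl⟩ | ⟨⟨u, b⟩, ⟨h1, h2, h3⟩, rfl⟩ | ⟨⟨u, b⟩, ⟨h1, h2, h3⟩, rfl⟩)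
    · have h3 : (u ++ []).Perm (List.range n) := by simpa using h1
      refine ⟨perm_mid.2 h3, by simp, ?_⟩
      have := (Q_snoc_right (u := u) (b := []) (n := n) (lt_of_perm h3)).2 (Q_nil.2 h2)
      simpa using this
    · refine ⟨?_, h2, (Q_snoc_left (lt_of_perm h1)
        ((nodup_of_perm h1).sublist (List.sublist_append_left _ _))).2 h3⟩
      have := perm_mid.2 h1
      simpa using this
    · refine ⟨?_, by simp, (Q_snoc_right (lt_of_perm h1)).2 h3⟩
      have h4 : ((u ++ b) ++ []).Perm (List.range n) := by simpa using h1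
      have := perm_mid.2 h4
      simpa using this

/-- the two finite families -/
def W : ℕ → Finset (List ℕ) × Finset (List ℕ × List ℕ)
  | 0 => ({[]}, ∅)
  | n + 1 => ((W n).1.image (fun u => u ++ [n]) ∪ (W n).2.image (fun p => p.1 ++ n :: p.2),
      (W n).1.image (fun u => (u, [n])) ∪ ((W n).2.image (fun p => (p.1 ++ [n], p.2)) ∪
        (W n).2.image (fun p => (p.1, p.2 ++ [n]))))

lemma mem_W (n : ℕ) : (∀ w, w ∈ (W n).1 ↔ S0 n w) ∧ (∀ p, p ∈ (W n).2 ↔ S1 n p) := by
  induction n with
  | zero =>
    constructor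
    · intro w
      simp only [W, Finset.mem_singleton, S0, List.range_zero, List.perm_nil]
      constructor
      · rintro rfl
        refine ⟨rfl, ?_, ?_⟩
        · intro x y z h; simp at h
        · intro x y z t h; simp at h
      · exact fun h => h.1
    · intro p
      simp only [W, S1, List.range_zero, List.perm_nil, List.append_eq_nil_iff]
      constructor
      · intro h; simp at h
      · rintro ⟨⟨_, h1⟩, h2, _⟩; exact absurd h1 h2
  | succ n ih =>
    obtain ⟨i0, i1⟩ := ih
    constructor
    · intro w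
      rw [step0]
      simp only [W, Finset.mem_union, Finset.mem_image, i0, i1]
      constructor
      · rintro (⟨u, h, rfl⟩ | ⟨p, h, rfl⟩)
        · exact Or.inl ⟨u, h, rfl⟩
        · exact Or.inr ⟨p, h, rfl⟩
      · rintro (⟨u, h, rfl⟩ | ⟨p, h, rfl⟩)
        · exact Or.inl ⟨u, h, rfl⟩
        · exact Or.inr ⟨p, h, rfl⟩
    · intro p
      rw [step1]
      simp only [W, Finset.mem_union, Finset.mem_image, i0, i1]
      constructor
      · rintro (⟨u, h, rfl⟩ | ⟨p, h, rfl⟩ | ⟨p, h, rfl⟩)
        · exact Or.inl ⟨u, h, rfl⟩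
        · exact Or.inr (Or.inl ⟨p, h, rfl⟩)
        · exact Or.inr (Or.inr ⟨p, h, rfl⟩)
      · rintro (⟨u, h, rfl⟩ | ⟨p, h, rfl⟩ | ⟨p, h, rfl⟩)
        · exact Or.inl ⟨u, h, rfl⟩
        · exact Or.inr (Or.inl ⟨p, h, rfl⟩)
        · exact Or.inr (Or.inr ⟨p, h, rfl⟩)


lemma not_mem_of_perm {u : List ℕ} {n : ℕ} (h : u.Perm (List.range n)) : n ∉ u := fun hn =>
  absurd (lt_of_perm h n hn) (lt_irrefl n)

lemma card_W1 (n : ℕ) : (W (n + 1)).1.card = (W n).1.card + (W n).2.card := by
  obtain ⟨i0, i1⟩ := mem_W n
  have h1 : Set.InjOn (fun u : List ℕ => u ++ [n]) ((W n).1 : Set (List ℕ)) := by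
    intro u _ u' _ h
    exact List.append_cancel_right h
  have h2 : Set.InjOn (fun p : List ℕ × List ℕ => p.1 ++ n :: p.2)
      ((W n).2 : Set (List ℕ × List ℕ)) := by
    intro p hp q hq h
    have hp' := not_mem_of_perm ((i1 p).1 hp).1
    have hq' := not_mem_of_perm ((i1 q).1 hq).1
    simp only [List.mem_append, not_or] at hp' hq'
    have := (List.append_cons_inj_of_notMem hp'.1 hp'.2).1 h
    exact Prod.ext this.1 this.2.2
  simp only [W]
  rw [Finset.card_union_of_disjoint, Finset.card_image_of_injOn h1,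
    Finset.card_image_of_injOn h2]
  rw [Finset.disjoint_left]
  rintro w hw hw'
  simp only [Finset.mem_image] at hw hw'
  obtain ⟨u, hu, rfl⟩ := hw
  obtain ⟨p, hp, h⟩ := hw'
  have hp1 := (i1 p).1 hp
  have hp' := not_mem_of_perm hp1.1
  simp only [List.mem_append, not_or] at hp'
  have := (List.append_cons_inj_of_notMem hp'.1 hp'.2).1 h
  exact hp1.2.1 this.2.2

lemma card_W2 (n : ℕ) : (W (n + 1)).2.card = (W n).1.card + 2 * (W n).2.card := by
  obtain ⟨i0, i1⟩ := mem_W n
  have h1 : Set.InjOn (fun u : List ℕ => (u, [n])) ((W n).1 : Set (List ℕ)) := by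
    intro u _ u' _ h
    exact (Prod.ext_iff.1 h).1
  have h2 : Set.InjOn (fun p : List ℕ × List ℕ => (p.1 ++ [n], p.2))
      ((W n).2 : Set (List ℕ × List ℕ)) := by
    intro p hp q hq h
    have := Prod.ext_iff.1 h
    exact Prod.ext (List.append_cancel_right this.1) this.2
  have h3 : Set.InjOn (fun p : List ℕ × List ℕ => (p.1, p.2 ++ [n]))
      ((W n).2 : Set (List ℕ × List ℕ)) := by
    intro p hp q hq h
    have := Prod.ext_iff.1 h
    exact Prod.ext this.1 (List.append_cancel_right this.2)
  simp only [W]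
  have d1 : Disjoint ((W n).2.image (fun p : List ℕ × List ℕ => (p.1 ++ [n], p.2)))
      ((W n).2.image (fun p : List ℕ × List ℕ => (p.1, p.2 ++ [n]))) := by
    rw [Finset.disjoint_left]
    rintro w hw hw'
    simp only [Finset.mem_image] at hw hw'
    obtain ⟨p, hp, rfl⟩ := hw
    obtain ⟨q, hq, h⟩ := hw'
    have hq' := not_mem_of_perm ((i1 q).1 hq).1
    have := (Prod.ext_iff.1 h).1
    simp only at this
    apply hq'
    rw [this]
    simp
  have d2 : Disjoint ((W n).1.image (fun u : List ℕ => (u, [n])))
      ((W n).2.image (fun p : List ℕ × List ℕ => (p.1 ++ [n], p.2)) ∪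
      (W n).2.image (fun p : List ℕ × List ℕ => (p.1, p.2 ++ [n]))) := by
    rw [Finset.disjoint_left]
    rintro w hw hw'
    simp only [Finset.mem_image, Finset.mem_union] at hw hw'
    obtain ⟨u, hu, rfl⟩ := hw
    rcases hw' with ⟨q, hq, h⟩ | ⟨q, hq, h⟩
    · have hu' := not_mem_of_perm ((i0 u).1 hu).1
      have := (Prod.ext_iff.1 h).1
      simp only at this
      apply hu'
      rw [← this]
      simp
    · have hq1 := (i1 q).1 hq
      have := (Prod.ext_iff.1 h).2
      simp only at this
      have h4 := congrArg List.length this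
      simp at h4
      exact hq1.2.1 h4
  rw [Finset.card_union_of_disjoint d2, Finset.card_union_of_disjoint d1,
    Finset.card_image_of_injOn h1, Finset.card_image_of_injOn h2,
    Finset.card_image_of_injOn h3]
  ring

lemma card_W (n : ℕ) :
    (W n).2.card = Nat.fib (2 * n) ∧ (W n).1.card + (W n).2.card = Nat.fib (2 * n + 1) := by
  induction n with
  | zero => simp [W]
  | succ n ih =>
    obtain ⟨h1, h2⟩ := ih
    have e1 : Nat.fib (2 * (n + 1)) = Nat.fib (2 * n) + Nat.fib (2 * n + 1) := by
      rw [show 2 * (n + 1) = 2 * n + 2 by ring, Nat.fib_add_two]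
    have e2 : Nat.fib (2 * (n + 1) + 1) = Nat.fib (2 * n + 1) + Nat.fib (2 * (n + 1)) := by
      rw [show 2 * (n + 1) + 1 = (2 * n + 1) + 2 by ring, Nat.fib_add_two]
      rfl
    rw [card_W1, card_W2, e2, e1]
    omega

lemma card_W_fib (n : ℕ) (hn : 1 ≤ n) : (W n).1.card = Nat.fib (2 * n - 1) := by
  obtain ⟨m, rfl⟩ : ∃ m, n = m + 1 := ⟨n - 1, by omega⟩
  rw [card_W1, (card_W m).2]
  congr 1

/-! ### Part 2: permutations of `Fin n` -/

/-- `π` contains the pattern 321 -/
def Has321 {n : ℕ} (π : Equiv.Perm (Fin n)) : Prop :=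
  ∃ i j k : Fin n, i < j ∧ j < k ∧ π k < π j ∧ π j < π i

/-- `π` contains the pattern 3142 -/
def Has3142 {n : ℕ} (π : Equiv.Perm (Fin n)) : Prop :=
  ∃ i j k l : Fin n, i < j ∧ j < k ∧ k < l ∧ π j < π l ∧ π l < π i ∧ π i < π k

def wd {n : ℕ} (π : Equiv.Perm (Fin n)) : List ℕ := List.ofFn (fun i => (π i : ℕ))

lemma wd_perm {n : ℕ} (π : Equiv.Perm (Fin n)) : (wd π).Perm (List.range n) := by
  rw [List.perm_ext_iff_of_nodup]
  · intro a
    simp only [wd, List.mem_ofFn, List.mem_range]
    constructor
    · rintro ⟨i, rfl⟩; exact (π i).2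
    · intro h; exact ⟨π.symm ⟨a, h⟩, by simp⟩
  · unfold wd
    rw [List.nodup_ofFn]
    intro i j h
    exact π.injective (Fin.ext h)
  · exact List.nodup_range

lemma wd_injective {n : ℕ} : Function.Injective (wd (n := n)) := by
  intro π ρ h
  have := List.ofFn_injective h
  ext i
  exact congrFun this i

lemma wd_surj {n : ℕ} {w : List ℕ} (h : w.Perm (List.range n)) :
    ∃ π : Equiv.Perm (Fin n), wd π = w := by
  have hl : w.length = n := by rw [h.length_eq, List.length_range]
  have hlt := lt_of_perm h
  have hnd := nodup_of_perm h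
  let f : Fin n → Fin n := fun i => ⟨w[(i : ℕ)]'(by rw [hl]; exact i.2), hlt _ (List.getElem_mem _)⟩
  have hf : Function.Injective f := by
    intro i j hij
    have h1 : w[(i : ℕ)]'(by rw [hl]; exact i.2) = w[(j : ℕ)]'(by rw [hl]; exact j.2) :=
      congrArg Fin.val hij
    exact Fin.ext ((List.Nodup.getElem_inj_iff hnd).1 h1)
  refine ⟨Equiv.ofBijective f (Finite.injective_iff_bijective.1 hf), ?_⟩
  apply List.ext_getElem
  · simp [wd, hl]
  · intro i h1 h2
    simp [wd, f]

lemma sub_wd {n : ℕ} {π : Equiv.Perm (Fin n)} {l : List ℕ} (h : l.Sublist (wd π)) :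
    ∃ g : Fin l.length → Fin n, StrictMono g ∧ ∀ i, l.get i = (π (g i) : ℕ) := by
  rw [List.sublist_iff_exists_fin_orderEmbedding_get_eq] at h
  obtain ⟨f, hf⟩ := h
  have hl : (wd π).length = n := by simp [wd]
  refine ⟨fun i => Fin.cast hl (f i), ?_, ?_⟩
  · intro i j hij
    have := f.strictMono hij
    exact this
  · intro i
    rw [hf i]
    simp [wd]
    rfl

lemma sub_wd' {n : ℕ} {π : Equiv.Perm (Fin n)} {k : ℕ} (g : Fin k → Fin n)
    (hg : StrictMono g) : (List.ofFn (fun i => (π (g i) : ℕ))).Sublist (wd π) := by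
  rw [List.sublist_iff_exists_fin_orderEmbedding_get_eq]
  have hl : (wd π).length = n := by simp [wd]
  have hk : (List.ofFn (fun i => (π (g i) : ℕ))).length = k := by simp
  refine ⟨OrderEmbedding.ofStrictMono (fun i => Fin.cast hl.symm (g (Fin.cast hk i))) ?_, ?_⟩
  · intro i j hij
    have : Fin.cast hk i < Fin.cast hk j := hij
    exact hg this
  · intro i
    simp [wd]
    rfl

lemma A321_iff {n : ℕ} (π : Equiv.Perm (Fin n)) : A321 (wd π) ↔ ¬ Has321 π := by
  constructor
  · rintro h ⟨i, j, k, hij, hjk, h1, h2⟩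
    have hs := sub_wd' (π := π) ![i, j, k] (by
      intro a b hab
      fin_cases a <;> fin_cases b <;> simp_all
      exact hij.trans hjk)
    simp [List.ofFn_succ] at hs
    exact h _ _ _ hs ⟨h1, h2⟩
  · intro h x y z hs ⟨h1, h2⟩
    obtain ⟨g, hg, hv⟩ := sub_wd hs
    apply h
    have v0 := hv ⟨0, by simp⟩
    have v1 := hv ⟨1, by simp⟩
    have v2 := hv ⟨2, by simp⟩
    simp only [List.get_eq_getElem, List.getElem_cons_zero, List.getElem_cons_succ] at v0 v1 v2
    refine ⟨g ⟨0, by simp⟩, g ⟨1, by simp⟩, g ⟨2, by simp⟩, hg (by simp), hg (by simp), ?_, ?_⟩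
    · rw [Fin.lt_def]; omega
    · rw [Fin.lt_def]; omega

lemma A3142_iff {n : ℕ} (π : Equiv.Perm (Fin n)) : A3142 (wd π) ↔ ¬ Has3142 π := by
  constructor
  · rintro h ⟨i, j, k, l, hij, hjk, hkl, h1, h2, h3⟩
    have hs := sub_wd' (π := π) ![i, j, k, l] (by
      rw [Fin.strictMono_iff_lt_succ]
      intro a
      fin_cases a
      · exact hij
      · exact hjk
      · exact hkl)
    simp [List.ofFn_succ] at hs
    exact h _ _ _ _ hs ⟨h1, h2, h3⟩
  · intro h x y z t hs ⟨h1, h2, h3⟩
    obtain ⟨g, hg, hv⟩ := sub_wd hs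
    apply h
    have v0 := hv ⟨0, by simp⟩
    have v1 := hv ⟨1, by simp⟩
    have v2 := hv ⟨2, by simp⟩
    have v3 := hv ⟨3, by simp⟩
    simp only [List.get_eq_getElem, List.getElem_cons_zero, List.getElem_cons_succ] at v0 v1 v2 v3
    refine ⟨g ⟨0, by simp⟩, g ⟨1, by simp⟩, g ⟨2, by simp⟩, g ⟨3, by simp⟩, hg (by simp),
      hg (by simp), hg (by simp), ?_, ?_, ?_⟩
    · rw [Fin.lt_def]; omega
    · rw [Fin.lt_def]; omega
    · rw [Fin.lt_def]; omega

lemma card_av {n : ℕ} (hn : 1 ≤ n) :
    Nat.card {π : Equiv.Perm (Fin n) // ¬ Has321 π ∧ ¬ Has3142 π} = Nat.fib (2 * n - 1) := by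
  have hm := (mem_W n).1
  have key : ∀ π : Equiv.Perm (Fin n), (¬ Has321 π ∧ ¬ Has3142 π) ↔ wd π ∈ (W n).1 := by
    intro π
    rw [hm]
    unfold S0 Av
    rw [A321_iff, A3142_iff]
    exact ⟨fun h => ⟨wd_perm π, h⟩, fun h => h.2⟩
  have e : {π : Equiv.Perm (Fin n) // ¬ Has321 π ∧ ¬ Has3142 π} ≃ {w // w ∈ (W n).1} := by
    refine Equiv.ofBijective (fun π => ⟨wd π.1, (key π.1).1 π.2⟩) ⟨?_, ?_⟩
    · intro π ρ h
      exact Subtype.ext (wd_injective (Subtype.ext_iff.1 h))
    · rintro ⟨w, hw⟩
      obtain ⟨π, rfl⟩ := wd_surj ((hm w).1 hw).1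
      exact ⟨⟨π, (key π).2 hw⟩, rfl⟩
  rw [Nat.card_congr e, ← card_W_fib n hn, Nat.card_eq_fintype_card, Fintype.card_coe]

/-! ### Part 3: the standard cycle form and the map `θ` -/

/-- the list of lists `C` cuts a word into blocks, each block begins with its largest letter,
and the first letters of the blocks increase -/
structure Blocks {n : ℕ} (C : List (List (Fin n))) : Prop where
  nonempty : ∀ c ∈ C, c ≠ []
  head_max : ∀ c ∈ C, ∀ m t, c = m :: t → ∀ x ∈ t, x < m
  heads_lt : C.Pairwise (fun c d => ∀ m t m' t', c = m :: t → d = m' :: t' → m < m')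

/-- `C` is the standard cycle form of the permutation `σ`: the cycles of `σ` (fixed points
included) are the members of `C`, each of them begins with its largest element, and the
cycles are ordered by increasing largest element -/
structure IsStdForm {n : ℕ} (σ : Equiv.Perm (Fin n)) (C : List (List (Fin n))) : Prop
    extends Blocks C where
  nodup : C.flatten.Nodup
  complete : ∀ x, x ∈ C.flatten
  cyc : ∀ c ∈ C, ∀ i : Fin c.length,
    σ (c.get i) = c.get ⟨((i : ℕ) + 1) % c.length, Nat.mod_lt _ i.pos⟩

/-- `IsTheta σ π`: the permutation `π` is `θ(σ)`, i.e. the one-line notation of `π` is obtained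
by deleting the parentheses in the standard cycle form of `σ` -/
def IsTheta {n : ℕ} (σ π : Equiv.Perm (Fin n)) : Prop :=
  ∃ C : List (List (Fin n)), IsStdForm σ C ∧ C.flatten = List.ofFn π

/-- `π` contains the arrow pattern `(12; 1 → 3)` -/
def HasArrow {n : ℕ} (π : Equiv.Perm (Fin n)) : Prop :=
  ∃ σ : Equiv.Perm (Fin n), IsTheta σ π ∧
    ∃ x₁ x₂ x₃ : Fin n, x₁ < x₂ ∧ x₂ < x₃ ∧ π.symm x₁ < π.symm x₂ ∧ σ x₁ = x₃

lemma exists_blocks {n : ℕ} (w : List (Fin n)) (hw : w.Nodup) :
    ∃ C : List (List (Fin n)), Blocks C ∧ C.flatten = w := by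
  induction w using List.reverseRecOn with
  | nil => exact ⟨[], ⟨by simp, by simp, by simp⟩, by simp⟩
  | append_singleton w x ih =>
    have hx : x ∉ w := by
      have := (List.nodup_append.1 hw).2.2
      intro h
      exact this x h x (by simp) rfl
    obtain ⟨C, hC, hf⟩ := ih (hw.sublist (List.sublist_append_left _ _))
    rcases List.eq_nil_or_concat C with rfl | ⟨D, c, rfl⟩
    · refine ⟨[[x]], ⟨by simp, ?_, by simp⟩, ?_⟩
      · intro c hc m t h y hy
        simp at hc
        subst hc
        simp at h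
        obtain ⟨rfl, rfl⟩ := h
        simp at hy
      · simp at hf
        subst hf
        simp
    · rcases c with _ | ⟨m, t⟩
      · exact absurd rfl (hC.nonempty [] (by simp))
      · by_cases hxm : x < m
        · refine ⟨D ++ [(m :: t) ++ [x]], ⟨?_, ?_, ?_⟩, ?_⟩
          · intro c hc
            rcases List.mem_append.1 hc with hc | hc
            · exact hC.nonempty c (by simp [hc])
            · simp at hc; subst hc; simp
          · intro c hc m' t' h y hy
            rcases List.mem_append.1 hc with hc | hc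
            · exact hC.head_max c (by simp [hc]) m' t' h y hy
            · simp only [List.mem_singleton] at hc
              subst hc
              simp only [List.cons_append, List.cons.injEq] at h
              obtain ⟨rfl, rfl⟩ := h
              rcases List.mem_append.1 hy with hy | hy
              · exact hC.head_max (m :: t) (by simp) m t rfl y hy
              · simp at hy; subst hy; exact hxm
          · have h1 := hC.heads_lt
            rw [List.concat_eq_append, List.pairwise_append] at h1
            rw [List.pairwise_append]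
            refine ⟨h1.1, by simp, ?_⟩
            intro a ha b hb m1 t1 m2 t2 e1 e2
            simp only [List.mem_singleton] at hb
            subst hb
            simp only [List.cons_append, List.cons.injEq] at e2
            obtain ⟨rfl, _⟩ := e2
            exact h1.2.2 a ha (m :: t) (by simp) m1 t1 m t e1 rfl
          · rw [← hf]
            simp
        · have hmx : m < x := by
            have hm : m ∈ w := by
              rw [← hf]; simp
            have : x ≠ m := fun h => hx (h ▸ hm)
            omega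
          refine ⟨D.concat (m :: t) ++ [[x]], ⟨?_, ?_, ?_⟩, ?_⟩
          · intro c hc
            rcases List.mem_append.1 hc with hc | hc
            · exact hC.nonempty c hc
            · simp at hc; subst hc; simp
          · intro c hc m' t' h y hy
            rcases List.mem_append.1 hc with hc | hc
            · exact hC.head_max c hc m' t' h y hy
            · simp only [List.mem_singleton] at hc
              subst hc
              simp at h
              obtain ⟨rfl, rfl⟩ := h
              simp at hy
          · rw [List.pairwise_append]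
            refine ⟨hC.heads_lt, by simp, ?_⟩
            intro a ha b hb m1 t1 m2 t2 e1 e2
            simp only [List.mem_singleton] at hb
            subst hb
            simp at e2
            obtain ⟨rfl, _⟩ := e2
            have h1 := hC.heads_lt
            rw [List.concat_eq_append, List.pairwise_append] at h1
            rw [List.concat_eq_append, List.mem_append] at ha
            rcases ha with ha | ha
            · exact lt_trans (h1.2.2 a ha (m :: t) (by simp) m1 t1 m t e1 rfl) hmx
            · simp only [List.mem_singleton] at ha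
              subst ha
              simp at e1
              obtain ⟨rfl, _⟩ := e1
              exact hmx
          · rw [List.flatten_append, hf]
            simp

lemma blocks_unique {n : ℕ} : ∀ (C D : List (List (Fin n))), Blocks C → Blocks D →
    C.flatten = D.flatten → C = D := by
  have key : ∀ (c d : List (Fin n)) (C D : List (List (Fin n))), Blocks (c :: C) →
      Blocks (d :: D) → c.length ≤ d.length → c ++ C.flatten = d ++ D.flatten → c = d := by
    intro c d C D hC hD hl h
    rw [List.append_eq_append_iff] at h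
    rcases h with ⟨a, h1, h2⟩ | ⟨a, h1, h2⟩
    · rcases a with _ | ⟨x, a⟩
      · simpa using h1.symm
      · exfalso
        rcases C with _ | ⟨c', C⟩
        · simp at h2
        · rcases c' with _ | ⟨y, c'⟩
          · exact absurd rfl (hC.nonempty [] (by simp))
          · simp only [List.flatten_cons, List.cons_append, List.cons.injEq] at h2
            obtain ⟨rfl, h2⟩ := h2
            rcases c with _ | ⟨m, t⟩
            · exact absurd rfl (hC.nonempty [] (by simp))
            · have h3 := hC.heads_lt
              rw [List.pairwise_cons] at h3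
              have h4 := h3.1 (y :: c') (by simp) m t y c' rfl rfl
              subst h1
              have h5 := hD.head_max _ (List.mem_cons_self) m (t ++ y :: a) (by simp) y (by simp)
              exact absurd h4 (not_lt.2 h5.le)
    · subst h1
      simp only [List.length_append] at hl
      have : a = [] := List.eq_nil_of_length_eq_zero (by omega)
      subst this
      simp
  have tail : ∀ (c : List (Fin n)) (C : List (List (Fin n))), Blocks (c :: C) → Blocks C := by
    intro c C h
    refine ⟨fun d hd => h.nonempty d (by simp [hd]), fun d hd => h.head_max d (by simp [hd]), ?_⟩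
    exact (List.pairwise_cons.1 h.heads_lt).2
  intro C
  induction C with
  | nil =>
    intro D _ hD h
    rcases D with _ | ⟨d, D⟩
    · rfl
    · exfalso
      rcases d with _ | ⟨y, d⟩
      · exact absurd rfl (hD.nonempty [] (by simp))
      · simp at h
  | cons c C ih =>
    intro D hC hD h
    rcases D with _ | ⟨d, D⟩
    · exfalso
      rcases c with _ | ⟨y, c⟩
      · exact absurd rfl (hC.nonempty [] (by simp))
      · simp at h
    · simp only [List.flatten_cons] at h
      have hcd : c = d := by
        rcases le_total c.length d.length with hl | hl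
        · exact key c d C D hC hD hl h
        · exact (key d c D C hD hC hl h.symm).symm
      subst hcd
      have := ih D (tail c C hC) (tail c D hD) (List.append_cancel_left h)
      rw [this]


lemma blocks_disjoint {n : ℕ} {C : List (List (Fin n))} (hn : C.flatten.Nodup)
    {c d : List (Fin n)} (hc : c ∈ C) (hd : d ∈ C) {x : Fin n} (h1 : x ∈ c) (h2 : x ∈ d) :
    c = d := by
  rw [List.nodup_flatten] at hn
  by_contra hne
  have hp : C.Pairwise List.Disjoint := hn.2
  have : Std.Symm (List.Disjoint (α := Fin n)) := ⟨fun _ _ h => List.Disjoint.symm h⟩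
  exact hp.forall hc hd hne h1 h2

lemma get_unique {n : ℕ} {C : List (List (Fin n))} (hn : C.flatten.Nodup)
    {c d : List (Fin n)} (hc : c ∈ C) (hd : d ∈ C) (i : Fin c.length) (j : Fin d.length)
    (h : c.get i = d.get j) : c = d ∧ (i : ℕ) = j := by
  have e : c = d := by
    refine blocks_disjoint hn hc hd (x := c.get i) (List.get_mem _ _) ?_
    rw [h]; exact List.get_mem _ _
  subst e
  exact ⟨rfl, congrArg Fin.val
    ((List.Nodup.get_inj_iff ((List.nodup_flatten.1 hn).1 c hc)).1 h)⟩

lemma get_next {n : ℕ} {c d : List (Fin n)} (i : Fin c.length) (j : Fin d.length)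
    (e : c = d) (hij : (i : ℕ) = j) :
    c.get ⟨((i : ℕ) + 1) % c.length, Nat.mod_lt _ i.pos⟩ =
      d.get ⟨((j : ℕ) + 1) % d.length, Nat.mod_lt _ j.pos⟩ := by
  subst e
  simp only [hij]

lemma exists_sigma {n : ℕ} {C : List (List (Fin n))} (hn : C.flatten.Nodup)
    (hc : ∀ x, x ∈ C.flatten) : ∃ σ : Equiv.Perm (Fin n), ∀ c ∈ C, ∀ i : Fin c.length,
      σ (c.get i) = c.get ⟨((i : ℕ) + 1) % c.length, Nat.mod_lt _ i.pos⟩ := by
  have h1 : ∀ x : Fin n, ∃ c, c ∈ C ∧ ∃ i : Fin c.length, c.get i = x := by
    intro x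
    obtain ⟨c, hc1, hc2⟩ := List.mem_flatten.1 (hc x)
    obtain ⟨i, hi⟩ := List.mem_iff_get.1 hc2
    exact ⟨c, hc1, i, hi⟩
  choose c hcC i hi using h1
  let f : Fin n → Fin n := fun x =>
    (c x).get ⟨((i x : ℕ) + 1) % (c x).length, Nat.mod_lt _ (i x).pos⟩
  have hf : ∀ d ∈ C, ∀ j : Fin d.length,
      f (d.get j) = d.get ⟨((j : ℕ) + 1) % d.length, Nat.mod_lt _ j.pos⟩ := by
    intro d hd j
    obtain ⟨e1, e2⟩ := get_unique hn (hcC (d.get j)) hd (i (d.get j)) j (hi _)
    exact get_next _ _ e1 e2
  have hsurj : Function.Surjective f := by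
    intro y
    have hd := hcC y
    have hpos : 0 < (c y).length := (i y).pos
    refine ⟨(c y).get ⟨((i y : ℕ) + ((c y).length - 1)) % (c y).length, Nat.mod_lt _ hpos⟩, ?_⟩
    rw [hf _ hd]
    conv_rhs => rw [← hi y]
    congr 1
    apply Fin.ext
    simp only
    have h6 : (i y : ℕ) < (c y).length := (i y).2
    rcases Nat.eq_zero_or_pos (i y : ℕ) with h0 | h0
    · rw [h0, Nat.zero_add, Nat.mod_eq_of_lt (by omega : (c y).length - 1 < (c y).length),
        show (c y).length - 1 + 1 = (c y).length by omega, Nat.mod_self]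
    · rw [show (i y : ℕ) + ((c y).length - 1) = ((i y : ℕ) - 1) + (c y).length by omega,
        Nat.add_mod_right, Nat.mod_eq_of_lt (by omega : (i y : ℕ) - 1 < (c y).length),
        show (i y : ℕ) - 1 + 1 = (i y : ℕ) by omega, Nat.mod_eq_of_lt h6]
  refine ⟨Equiv.ofBijective f (Finite.surjective_iff_bijective.1 hsurj), ?_⟩
  intro d hd j
  exact hf d hd j

lemma ofFn_nodup {n : ℕ} (π : Equiv.Perm (Fin n)) : (List.ofFn π).Nodup := by
  rw [List.nodup_ofFn]; exact π.injective

/-- `θ` is a bijection: each `π` is `θ(σ)` for exactly one `σ` -/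
lemma theta_bijective {n : ℕ} (π : Equiv.Perm (Fin n)) : ∃! σ, IsTheta σ π := by
  obtain ⟨C, hC, hf⟩ := exists_blocks (List.ofFn π) (ofFn_nodup π)
  have hn : C.flatten.Nodup := by rw [hf]; exact ofFn_nodup π
  have hc : ∀ x, x ∈ C.flatten := by
    intro x
    rw [hf, List.mem_ofFn]
    exact ⟨π.symm x, by simp⟩
  obtain ⟨σ, hσ⟩ := exists_sigma hn hc
  refine ⟨σ, ⟨C, ⟨hC, hn, hc, hσ⟩, hf⟩, ?_⟩
  rintro τ ⟨D, hD, hfD⟩
  have hCD : D = C := blocks_unique D C hD.toBlocks hC (by rw [hf, hfD])
  subst hCD
  ext x
  obtain ⟨c, hc1, hc2⟩ := List.mem_flatten.1 (hc x)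
  obtain ⟨i, hi⟩ := List.mem_iff_get.1 hc2
  rw [← hi, hσ c hc1, hD.cyc c hc1]

section Main

variable {n : ℕ} {π σ : Equiv.Perm (Fin n)} {C : List (List (Fin n))}

/-- `c` comes before `d` -/
def Bef (π : Equiv.Perm (Fin n)) (c d : List (Fin n)) : Prop :=
  (∀ x ∈ c, ∀ y ∈ d, π.symm x < π.symm y) ∧
    ∀ m t m' t', c = m :: t → d = m' :: t' → m < m'

lemma pw (hf : C.flatten = List.ofFn π) :
    (∀ c ∈ C, c.Pairwise (fun x y => π.symm x < π.symm y)) ∧
      C.Pairwise (fun c d => ∀ x ∈ c, ∀ y ∈ d, π.symm x < π.symm y) := by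
  rw [← List.pairwise_flatten, hf, List.pairwise_ofFn]
  intro i j hij
  simpa using hij

lemma tri (hC : Blocks C) (hf : C.flatten = List.ofFn π) {c d : List (Fin n)} (hc : c ∈ C)
    (hd : d ∈ C) : c = d ∨ Bef π c d ∨ Bef π d c := by
  by_cases h : c = d
  · exact Or.inl h
  · right
    have h1 : C.Pairwise (Bef π) := (pw hf).2.and hC.heads_lt
    have h2 : C.Pairwise (fun c d => Bef π c d ∨ Bef π d c) := h1.imp Or.inl
    have : Std.Symm (fun c d => Bef π c d ∨ Bef π d c) := ⟨fun _ _ h => Or.symm h⟩
    exact h2.forall hc hd h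

lemma to_arrow (hS : IsStdForm σ C) (hf : C.flatten = List.ofFn π) (h3 : ¬ Has321 π)
    (h4 : Has3142 π) : ∃ x₁ x₂ x₃ : Fin n, x₁ < x₂ ∧ x₂ < x₃ ∧ π.symm x₁ < π.symm x₂ ∧
      σ x₁ = x₃ := by
  obtain ⟨i, j, k, l, hij, hjk, hkl, h5, h6, h7⟩ := h4
  have h321 : ∀ x y z : Fin n, π.symm x < π.symm y → π.symm y < π.symm z →
      ¬ (z < y ∧ y < x) := by
    intro x y z g1 g2 g3
    exact h3 ⟨π.symm x, π.symm y, π.symm z, g1, g2, by simpa using g3.1, by simpa using g3.2⟩
  have hpw := (pw hf).1
  obtain ⟨c, hc, hqc⟩ := List.mem_flatten.1 (hS.complete (π j))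
  obtain ⟨d, hd, hpd⟩ := List.mem_flatten.1 (hS.complete (π i))
  obtain ⟨d', hd', hrd⟩ := List.mem_flatten.1 (hS.complete (π k))
  rcases hce : c with _ | ⟨h, t⟩
  · rw [hce] at hqc; simp at hqc
  · have hmax : ∀ x ∈ t, x < h := hS.head_max c hc h t hce
    have hpos : ∀ x ∈ t, π.symm h < π.symm x := by
      have := hpw c hc
      rw [hce, List.pairwise_cons] at this
      exact this.1
    have hph : π i ≤ h := by
      rcases tri hS.toBlocks hf hc hd with e | hb | hb
      · rw [← e, hce] at hpd
        rcases List.mem_cons.1 hpd with e1 | e1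
        · exact e1.le
        · exact (hmax _ e1).le
      · have := hb.1 _ hqc _ hpd
        simp at this
        exact absurd this (not_lt.2 hij.le)
      · rcases hde : d with _ | ⟨m, u⟩
        · rw [hde] at hpd; simp at hpd
        · have g1 := hb.2 m u h t hde hce
          rw [hde] at hpd
          rcases List.mem_cons.1 hpd with e1 | e1
          · rw [e1]; exact g1.le
          · exact ((hS.head_max d hd m u hde _ e1).trans g1).le
    have hqt : π j ∈ t := by
      rw [hce] at hqc
      rcases List.mem_cons.1 hqc with e1 | e1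
      · exfalso
        rw [← e1] at hph
        exact absurd (h5.trans h6) (not_lt.2 hph)
      · exact e1
    have hposq := hpos _ hqt
    simp only [Equiv.symm_apply_apply] at hposq
    have hbr : Bef π c d' := by
      rcases tri hS.toBlocks hf hc hd' with e | hb | hb
      · exfalso
        rw [← e, hce] at hrd
        rcases List.mem_cons.1 hrd with e1 | e1
        · rw [← e1] at hposq
          simp at hposq
          exact absurd hposq (not_lt.2 hjk.le)
        · apply h321 h (π k) (π l)
          · simpa using hposq.trans hjk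
          · simpa using hkl
          · exact ⟨h6.trans h7, hmax _ e1⟩
      · exact hb
      · have := hb.1 _ hrd _ hqc
        simp at this
        exact absurd this (not_lt.2 hjk.le)
    -- the last element
    have hlen : 0 < t.length := List.length_pos_of_mem hqt
    have hclen : c.length = t.length + 1 := by rw [hce]; simp
    let e : Fin n := c.get ⟨t.length, by omega⟩
    have hec : e ∈ c := List.get_mem _ _
    have hσe : σ e = h := by
      have := hS.cyc c hc ⟨t.length, by omega⟩
      simp only [e]
      rw [this]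
      simp only [List.get_eq_getElem]
      have e0 : (t.length + 1) % c.length = 0 := by rw [hclen, Nat.mod_self]
      simp only [e0]
      simp [hce]
    have het : e ∈ t := by
      simp only [e, List.get_eq_getElem, hce]
      rw [List.getElem_cons]
      simp only [dif_neg (by omega : ¬ t.length = 0)]
      exact List.getElem_mem _
    have heh := hmax e het
    have hpe := hpos e het
    -- position of e versus q
    have hqe : π j = e ∨ j < π.symm e := by
      obtain ⟨a, ha⟩ := List.mem_iff_get.1 hqc
      by_cases hal : (a : ℕ) = t.length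
      · left
        rw [← ha]
        simp only [e]
        congr 1
        exact Fin.ext hal
      · right
        have h8 := List.pairwise_iff_get.1 (hpw c hc) a ⟨t.length, by omega⟩ (by
          rw [Fin.lt_def]
          have := a.2
          simp only
          omega)
        rw [ha, Equiv.symm_apply_apply] at h8
        exact h8
    have hes : π.symm e < π.symm (π l) := by
      have h8 := hbr.1 e hec (π k) hrd
      simp only [Equiv.symm_apply_apply] at h8 ⊢
      exact h8.trans hkl
    have hel : e < π l := by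
      rcases hqe with e1 | e1
      · rw [← e1]; exact h5
      · have g1 : π j < e := by
          rcases lt_trichotomy (π j) e with g | g | g
          · exact g
          · rw [← g] at e1; simp at e1
          · exfalso
            apply h321 h (π j) e
            · simpa using hposq
            · simpa using e1
            · exact ⟨g, hmax _ hqt⟩
        rcases lt_trichotomy e (π l) with g | g | g
        · exact g
        · rw [g] at hes; exact absurd hes (lt_irrefl _)
        · exfalso
          apply h321 h e (π l)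
          · exact hpe
          · exact hes
          · exact ⟨g, heh⟩
    exact ⟨e, π l, h, hel, lt_of_lt_of_le h6 hph, hes, hσe⟩

lemma of_arrow (hS : IsStdForm σ C) (hf : C.flatten = List.ofFn π) (h3 : ¬ Has321 π)
    {x₁ x₂ x₃ : Fin n} (h12 : x₁ < x₂) (h23 : x₂ < x₃) (hp : π.symm x₁ < π.symm x₂)
    (hσ : σ x₁ = x₃) : Has3142 π := by
  have h321 : ∀ x y z : Fin n, π.symm x < π.symm y → π.symm y < π.symm z →
      ¬ (z < y ∧ y < x) := by
    intro x y z g1 g2 g3
    exact h3 ⟨π.symm x, π.symm y, π.symm z, g1, g2, by simpa using g3.1, by simpa using g3.2⟩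
  have hpw := (pw hf).1
  obtain ⟨c, hc, h1c⟩ := List.mem_flatten.1 (hS.complete x₁)
  obtain ⟨d, hd, h2d⟩ := List.mem_flatten.1 (hS.complete x₂)
  obtain ⟨i, hi⟩ := List.mem_iff_get.1 h1c
  have hcyc := hS.cyc c hc i
  rw [hi, hσ] at hcyc
  rcases hce : c with _ | ⟨h, t⟩
  · rw [hce] at h1c; simp at h1c
  · have hmax : ∀ x ∈ t, x < h := hS.head_max c hc h t hce
    have hpos : ∀ x ∈ t, π.symm h < π.symm x := by
      have := hpw c hc
      rw [hce, List.pairwise_cons] at this
      exact this.1
    have hle : ∀ x ∈ c, x ≤ h := by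
      intro x hx
      rw [hce] at hx
      rcases List.mem_cons.1 hx with e | e
      · exact e.le
      · exact (hmax _ e).le
    have h3c : x₃ ∈ c := by rw [hcyc]; exact List.get_mem _ _
    have h1t : x₁ ∈ t := by
      have h1c' := h1c
      rw [hce] at h1c'
      rcases List.mem_cons.1 h1c' with e | e
      · exfalso
        have := hle x₃ h3c
        rw [← e] at this
        exact absurd (h12.trans h23) (not_lt.2 this)
      · exact e
    have hclen : c.length = t.length + 1 := by rw [hce]; simp
    have hi2 := i.2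
    by_cases hlast : (i : ℕ) + 1 < c.length
    · exfalso
      have e1 : ((i : ℕ) + 1) % c.length = (i : ℕ) + 1 := Nat.mod_eq_of_lt hlast
      simp only [e1] at hcyc
      have hp13 : π.symm x₁ < π.symm x₃ := by
        have := List.pairwise_iff_get.1 (hpw c hc) i ⟨(i : ℕ) + 1, hlast⟩ (by
          rw [Fin.lt_def]; simp)
        rw [hi, ← hcyc] at this
        exact this
      have hne : x₃ ≠ h := by
        intro e
        rw [e] at hp13
        exact absurd hp13 (not_lt.2 (hpos _ h1t).le)
      have hp32 : π.symm x₃ < π.symm x₂ := by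
        rcases tri hS.toBlocks hf hc hd with e | hb | hb
        · rw [← e] at h2d
          obtain ⟨j, hj⟩ := List.mem_iff_get.1 h2d
          rcases lt_trichotomy (j : ℕ) ((i : ℕ) + 1) with g | g | g
          · exfalso
            rcases Nat.lt_or_ge (j : ℕ) (i : ℕ) with g' | g'
            · have := List.pairwise_iff_get.1 (hpw c hc) j i g'
              rw [hi, hj] at this
              exact absurd this (not_lt.2 hp.le)
            · have : j = i := Fin.ext (by omega)
              rw [this, hi] at hj
              rw [hj] at h12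
              exact absurd h12 (lt_irrefl _)
          · exfalso
            have : j = ⟨(i : ℕ) + 1, hlast⟩ := Fin.ext g
            rw [this, ← hcyc] at hj
            rw [hj] at h23
            exact absurd h23 (lt_irrefl _)
          · have := List.pairwise_iff_get.1 (hpw c hc) ⟨(i : ℕ) + 1, hlast⟩ j g
            rw [hj, ← hcyc] at this
            exact this
        · exact hb.1 _ h3c _ h2d
        · have := hb.1 _ h2d _ h1c
          exact absurd this (not_lt.2 hp.le)
      apply h321 h x₃ x₂ ((hpos _ h1t).trans hp13) hp32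
      exact ⟨h23, lt_of_le_of_ne (hle _ h3c) hne⟩
    · have hi3 : (i : ℕ) + 1 = c.length := by omega
      have e1 : ((i : ℕ) + 1) % c.length = 0 := by rw [hi3, Nat.mod_self]
      simp only [e1] at hcyc
      have h3h : x₃ = h := by
        rw [hcyc]
        simp [hce]
      have hb : Bef π c d := by
        rcases tri hS.toBlocks hf hc hd with e | hb | hb
        · exfalso
          rw [← e] at h2d
          obtain ⟨j, hj⟩ := List.mem_iff_get.1 h2d
          have hj2 := j.2
          rcases Nat.lt_or_ge (j : ℕ) (i : ℕ) with g' | g'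
          · have := List.pairwise_iff_get.1 (hpw c hc) j i g'
            rw [hi, hj] at this
            exact absurd this (not_lt.2 hp.le)
          · have : j = i := Fin.ext (by omega)
            rw [this, hi] at hj
            rw [hj] at h12
            exact absurd h12 (lt_irrefl _)
        · exact hb
        · have := hb.1 _ h2d _ h1c
          exact absurd this (not_lt.2 hp.le)
      rcases hde : d with _ | ⟨h', t'⟩
      · rw [hde] at h2d; simp at h2d
      · have hhh := hb.2 h t h' t' hce hde
        have h2t : x₂ ∈ t' := by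
          have h2d' := h2d
          rw [hde] at h2d'
          rcases List.mem_cons.1 h2d' with e | e
          · exfalso
            rw [e, h3h] at h23
            exact absurd h23 (not_lt.2 hhh.le)
          · exact e
        have hp2 : π.symm h' < π.symm x₂ := by
          have := hpw d hd
          rw [hde, List.pairwise_cons] at this
          exact this.1 _ h2t
        have hp1 : π.symm x₁ < π.symm h' := hb.1 _ h1c _ (by rw [hde]; simp)
        refine ⟨π.symm h, π.symm x₁, π.symm h', π.symm x₂, hpos _ h1t, hp1, hp2, ?_, ?_, ?_⟩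
        · simpa using h12
        · simpa [← h3h] using h23
        · simpa using hhh

end Main

lemma arrow_iff {n : ℕ} {π : Equiv.Perm (Fin n)} (h3 : ¬ Has321 π) :
    HasArrow π ↔ Has3142 π := by
  constructor
  · rintro ⟨σ, ⟨C, hS, hf⟩, x₁, x₂, x₃, h12, h23, hp, hσ⟩
    exact of_arrow hS hf h3 h12 h23 hp hσ
  · intro h4
    obtain ⟨σ, ⟨C, hS, hf⟩, _⟩ := theta_bijective π
    exact ⟨σ, ⟨C, hS, hf⟩, to_arrow hS hf h3 h4⟩

/-- `θ` is well defined and bijective, and for `n ≥ 1` the number of permutations of `[n]` that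
avoid both `321` and the arrow pattern `(12; 1 → 3)` is the Fibonacci number `F_{2n-1}`. -/
theorem result :
    (∀ (n : ℕ) (π : Equiv.Perm (Fin n)), ∃! σ, IsTheta σ π) ∧
    ∀ n : ℕ, 1 ≤ n →
      Nat.card {π : Equiv.Perm (Fin n) // ¬ Has321 π ∧ ¬ HasArrow π} = Nat.fib (2 * n - 1) := by
  refine ⟨fun n π => theta_bijective π, ?_⟩
  intro n hn
  rw [← card_av hn]
  apply Nat.card_congr
  apply Equiv.subtypeEquivRight
  intro π
  constructor
  · rintro ⟨h1, h2⟩; exact ⟨h1, fun h => h2 ((arrow_iff h1).2 h)⟩
  · rintro ⟨h1, h2⟩; exact ⟨h1, fun h => h2 ((arrow_iff h1).1 h)⟩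

end Pool.Agent.Results.MP_1ce666_co.FibCount
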